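import Pool.Agent.Q197.SchB
import Pool.Agent.Q197.TraceOne

/-!
# Finiteness and order of magnitude of the Hlawka-type constants of the Schatten norms

`MP_1619cf_an`, Q1, asks for the constants `C_p` of the Schatten `p`-norms, `1 ≤ p < ∞`, `p ≠ 2`, and
in particular for which `p` the constant `C_p` is finite. Here: `C_1 = ∞`,
`C_p ≤ 1 + 8 p / min (1, p - 1)` for all `p > 1`, `C_p → ∞` as `p → 1`, and `C_p ≥ (p - 4) / 6`. So `C_p`
is finite if and only if `p > 1`, and it grows linearly as `p → ∞`.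

The upper bound (`Pool/Agent/Q197/SchA.lean`, `SchB.lean`): if `Z` has the largest norm and `ℓ` is the
norming functional of `Z`, then `D_3 ≤ (‖X‖ - ℓ X) + (‖Y‖ - ℓ Y)`; so it is enough to show
`1 - ℓ w ≤ K (2 - ‖u + w‖)` for unit vectors `u`, `w`. After Hermitian dilation this is an estimate
between Bregman divergences of `Tr |T|^p`, which follows from the three-point identity and from the
comparability `B(s|t) ≤ K B(t|s)`; by Klein's double sum over the two eigenbases the latter is the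
scalar inequality for `|t|^p`.

The case `p = 1` (`Pool/Agent/Q197/TraceOne.lean`): `X = E₁₁`, `Y = E₂₂`,
`Z = v vᵀ + i ε (v e₃ᵀ + e₃ vᵀ)`, `v = e₁ + e₂`.
-/

namespace Pool.Agent.Results.MP_1619cf_an.FinitenessAndGrowth

open Finset Matrix Pool.Agent.Q197.Sch

/-- `D_2(X, Y)` for the Schatten `p`-norm. -/
noncomputable def D2 {N M : ℕ} (p : ℝ) (X Y : Matrix (Fin N) (Fin M) ℂ) : ℝ :=
  sch p X + sch p Y - sch p (X + Y)

/-- `D_3(X, Y, Z)` for the Schatten `p`-norm. -/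
noncomputable def D3 {N M : ℕ} (p : ℝ) (X Y Z : Matrix (Fin N) (Fin M) ℂ) : ℝ :=
  sch p X + sch p Y + sch p Z - sch p (X + Y + Z)

/-- The inequality holds with the constant `C` for all matrices of all sizes. -/
def Holds (p C : ℝ) : Prop :=
  ∀ (N M : ℕ) (X Y Z : Matrix (Fin N) (Fin M) ℂ),
    D3 p X Y Z ≤ C * (D2 p X Y + D2 p X Z + D2 p Y Z)

theorem sum_eig_diag {k : ℕ} (d : Fin k → ℝ) (A : Matrix (Fin k) (Fin k) ℂ) (hA : A.IsHermitian)
    (h : A = diagonal fun i => ((d i : ℝ) : ℂ)) (φ : ℝ → ℝ) :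
    ∑ i, φ (hA.eigenvalues i) = ∑ i, φ (d i) := by
  have h1 := hA.roots_charpoly_eq_eigenvalues
  have h2 : A.charpoly.roots = Multiset.map (fun i => ((d i : ℝ) : ℂ)) Finset.univ.val := by
    rw [h, charpoly_diagonal, Polynomial.roots_prod]
    · simp
    · simp [Finset.prod_ne_zero_iff, Polynomial.X_sub_C_ne_zero]
  rw [h1] at h2
  have h3 := congrArg (fun s : Multiset ℂ => (s.map fun z => φ z.re).sum) h2
  simpa [List.sum_ofFn] using h3

theorem sch_diag {k : ℕ} {p : ℝ} (d : Fin k → ℝ) (hd : ∀ i, 0 ≤ d i) :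
    sch p (diagonal fun i => ((d i : ℝ) : ℂ)) = (∑ i, d i ^ p) ^ (1 / p) := by
  unfold sch sv
  congr 1
  rw [sum_eig_diag (fun i => d i ^ 2) _ _ _ (fun x => Real.sqrt x ^ p)]
  · refine Finset.sum_congr rfl fun i _ => ?_
    rw [Real.sqrt_sq (hd i)]
  · rw [diagonal_conjTranspose, diagonal_mul_diagonal]
    congr 1
    ext i
    simp
    ring

theorem sch_one {k : ℕ} (A : Matrix (Fin k) (Fin k) ℂ) :
    sch 1 A = Pool.Agent.Q197.TraceOne.traceNorm A := by
  unfold sch sv Pool.Agent.Q197.TraceOne.traceNorm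
  simp

theorem lower (p C : ℝ) (hp : 1 ≤ p) (hC : 0 ≤ C) (h : Holds p C) : (p - 4) / 6 ≤ C := by
  have hp0 : 0 < p := by linarith
  have h1 := h 3 3 (diagonal fun i => ((![1, 1, 0] i : ℝ) : ℂ))
    (diagonal fun i => ((![1, 0, 1] i : ℝ) : ℂ)) (diagonal fun i => ((![0, 1, 1] i : ℝ) : ℂ))
  have a1 : (diagonal fun i => ((![(1 : ℝ), 1, 0] i : ℝ) : ℂ)) +
      (diagonal fun i => ((![(1 : ℝ), 0, 1] i : ℝ) : ℂ)) =
      diagonal fun i => ((![(2 : ℝ), 1, 1] i : ℝ) : ℂ) := by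
    rw [diagonal_add]
    congr 1
    ext i
    fin_cases i <;> simp
    all_goals norm_num
  have a2 : (diagonal fun i => ((![(1 : ℝ), 1, 0] i : ℝ) : ℂ)) +
      (diagonal fun i => ((![(0 : ℝ), 1, 1] i : ℝ) : ℂ)) =
      diagonal fun i => ((![(1 : ℝ), 2, 1] i : ℝ) : ℂ) := by
    rw [diagonal_add]
    congr 1
    ext i
    fin_cases i <;> simp
    all_goals norm_num
  have a3 : (diagonal fun i => ((![(1 : ℝ), 0, 1] i : ℝ) : ℂ)) +
      (diagonal fun i => ((![(0 : ℝ), 1, 1] i : ℝ) : ℂ)) =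
      diagonal fun i => ((![(1 : ℝ), 1, 2] i : ℝ) : ℂ) := by
    rw [diagonal_add]
    congr 1
    ext i
    fin_cases i <;> simp
    all_goals norm_num
  have a4 : (diagonal fun i => ((![(2 : ℝ), 1, 1] i : ℝ) : ℂ)) +
      (diagonal fun i => ((![(0 : ℝ), 1, 1] i : ℝ) : ℂ)) =
      diagonal fun i => ((![(2 : ℝ), 2, 2] i : ℝ) : ℂ) := by
    rw [diagonal_add]
    congr 1
    ext i
    fin_cases i <;> simp
    all_goals norm_num
  unfold D2 D3 at h1
  rw [a1, a2, a3, a4, sch_diag _ (by intro i; fin_cases i <;> simp),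
    sch_diag _ (by intro i; fin_cases i <;> simp), sch_diag _ (by intro i; fin_cases i <;> simp),
    sch_diag _ (by intro i; fin_cases i <;> simp), sch_diag _ (by intro i; fin_cases i <;> simp),
    sch_diag _ (by intro i; fin_cases i <;> simp),
    sch_diag _ (by intro i; fin_cases i <;> simp)] at h1
  simp only [Fin.sum_univ_three, Matrix.cons_val_zero, Matrix.cons_val_one, Matrix.cons_val_two,
    Matrix.head_cons, Matrix.tail_cons, Real.one_rpow, Real.zero_rpow hp0.ne', add_zero,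
    zero_add] at h1
  have hq0 : 0 ≤ 1 / p := by positivity
  have hq1 : 1 / p ≤ 1 := by
    rw [div_le_one hp0]
    exact hp
  have b1 : (1 : ℝ) ≤ (1 + 1) ^ (1 / p) := Real.one_le_rpow (by norm_num) hq0
  have b2 : ((1 : ℝ) + 1) ^ (1 / p) ≤ 1 + 1 / p := by
    have := rpow_one_add_le_one_add_mul_self (s := 1) (by norm_num) hq0 hq1
    simpa using this
  have b3 : ((2 : ℝ) ^ p + 2 ^ p + 2 ^ p) ^ (1 / p) ≤ 2 * (1 + 2 / p) := by
    have c1 : (2 : ℝ) ^ p + 2 ^ p + 2 ^ p = 2 ^ p * (1 + 2) := by ring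
    rw [c1, Real.mul_rpow (by positivity) (by norm_num), ← Real.rpow_mul (by norm_num),
      mul_one_div_cancel hp0.ne', Real.rpow_one]
    have := rpow_one_add_le_one_add_mul_self (s := 2) (by norm_num) hq0 hq1
    have c2 : 1 / p * 2 = 2 / p := by ring
    rw [c2] at this
    linarith
  have b4 : ∀ t : ℝ, (2 : ℝ) ^ p ≤ t → 2 ≤ t ^ (1 / p) := by
    intro t ht
    have : ((2 : ℝ) ^ p) ^ (1 / p) ≤ t ^ (1 / p) :=
      Real.rpow_le_rpow (by positivity) ht hq0
    rwa [← Real.rpow_mul (by norm_num), mul_one_div_cancel hp0.ne', Real.rpow_one] at this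
  have b5 := b4 (2 ^ p + 1 + 1) (by linarith)
  have b6 := b4 (1 + 2 ^ p + 1) (by linarith)
  have b7 := b4 (1 + 1 + 2 ^ p) (by linarith)
  have h2 : C * ((1 + 1) ^ (1 / p) + (1 + 1) ^ (1 / p) - (2 ^ p + 1 + 1) ^ (1 / p) +
          ((1 + 1) ^ (1 / p) + (1 + 1) ^ (1 / p) - (1 + 2 ^ p + 1) ^ (1 / p)) +
        ((1 + 1) ^ (1 / p) + (1 + 1) ^ (1 / p) - (1 + 1 + 2 ^ p) ^ (1 / p))) ≤
      C * (6 * (1 / p)) := mul_le_mul_of_nonneg_left (by linarith) hC
  have h3 : 1 - 4 * (1 / p) ≤ C * (6 * (1 / p)) := by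
    have c3 : 2 * (1 + 2 / p) = 2 + 4 * (1 / p) := by ring
    rw [c3] at b3
    linarith
  have h4 : (1 - 4 * (1 / p)) * p ≤ C * (6 * (1 / p)) * p := mul_le_mul_of_nonneg_right h3 hp0.le
  have h5 : (1 - 4 * (1 / p)) * p = p - 4 := by field_simp
  have h6 : C * (6 * (1 / p)) * p = 6 * C := by field_simp
  rw [h5, h6] at h4
  linarith

theorem sch_cont {N M : ℕ} (X : Matrix (Fin N) (Fin M) ℂ) :
    ContinuousAt (fun p : ℝ => sch p X) 1 := by
  unfold sch
  refine ContinuousAt.rpow ?_ ?_ (Or.inr (by norm_num))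
  · show Filter.Tendsto _ _ _
    exact tendsto_finsetSum _ fun i _ => Real.continuousAt_const_rpow' one_ne_zero
  · exact continuousAt_const.div continuousAt_id one_ne_zero

theorem near_one (C : ℝ) (hC : 0 ≤ C) : ∀ᶠ p in nhds (1 : ℝ), ¬ Holds p C := by
  obtain ⟨X, Y, Z, hXYZ⟩ := Pool.Agent.Q197.TraceOne.trace_unbounded C hC
  have h1 : C * (D2 1 X Y + D2 1 X Z + D2 1 Y Z) < D3 1 X Y Z := by
    unfold D2 D3
    simp only [sch_one]
    exact hXYZ
  have h2 : ContinuousAt (fun p : ℝ => C * (D2 p X Y + D2 p X Z + D2 p Y Z)) 1 := by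
    unfold D2
    exact continuousAt_const.mul (((((sch_cont X).add (sch_cont Y)).sub (sch_cont _)).add
      (((sch_cont X).add (sch_cont Z)).sub (sch_cont _))).add
      (((sch_cont Y).add (sch_cont Z)).sub (sch_cont _)))
  have h3 : ContinuousAt (fun p : ℝ => D3 p X Y Z) 1 := by
    unfold D3
    exact (((sch_cont X).add (sch_cont Y)).add (sch_cont Z)).sub (sch_cont _)
  filter_upwards [Filter.Tendsto.eventually_lt h2 h3 h1] with p hp h
  exact absurd (h 3 3 X Y Z) (not_le.2 hp)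

theorem result :
    (∀ p : ℝ, 1 < p → Holds p (1 + 8 * p / min 1 (p - 1))) ∧
    (∀ C : ℝ, 0 ≤ C → ¬ Holds 1 C) ∧
    (∀ C : ℝ, 0 ≤ C → ∃ δ > 0, ∀ p : ℝ, 1 ≤ p → p < 1 + δ → ¬ Holds p C) ∧
    (∀ p C : ℝ, 1 ≤ p → 0 ≤ C → Holds p C → (p - 4) / 6 ≤ C) := by
  refine ⟨fun p hp N M X Y Z => ?_, fun C hC => (near_one C hC).self_of_nhds,
    fun C hC => ?_, lower⟩
  · have h1 := sch_hlawka hp X Y Z
    have h2 : 1 + 2 * (1 / cc p) = 1 + 8 * p / min 1 (p - 1) := by
      unfold cc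
      have hm : min 1 (p - 1) ≠ 0 := (lt_min one_pos (by linarith : (0 : ℝ) < p - 1)).ne'
      have hp0 : p ≠ 0 := by linarith
      field_simp
      ring
    rw [h2] at h1
    exact h1
  · obtain ⟨δ, hδ, h⟩ := Metric.eventually_nhds_iff.1 (near_one C hC)
    refine ⟨δ, hδ, fun p h1 h2 => h ?_⟩
    rw [Real.dist_eq, abs_of_nonneg (by linarith)]
    linarith

end Pool.Agent.Results.MP_1619cf_an.FinitenessAndGrowth
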